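import Pool.Agent.N659.HB.Stm10
import Pool.Agent.N491.SD.U1

/-!
# Decoupling for the Gaussian law (part GD of project SN, helper659; proof by helper164)

The truncated Gaussian law is a mixture of uniform laws on intervals `[-r, r]`, up to a constant with `r ≥ 1`, and for
the uniform law on `[-r, r]` the inequality holds with a constant independent of `r ≥ 1`, by scaling.
-/

set_option autoImplicit false

namespace Pool.Agent.N164.SN.GD

open MeasureTheory Filter Set Pool.Agent.N659.HB ProbabilityTheory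
open scoped Topology ENNReal

noncomputable section

/-- One level set. -/
theorem level {w : ℝ} (hw : 1 ≤ w) {G H : ℝ → ℝ≥0∞} {C : ℝ≥0∞}
    (h : ∀ r : ℝ, 1 ≤ r → r ≤ w → ∫⁻ t in Icc (-r) r, G t ≤ C * ∫⁻ t in Icc (-r) r, H t)
    {q : ℝ → ℝ} (hq1 : ∀ a : ℝ, |a| ≤ 1 → q a = q 0) (hq : ∀ a b : ℝ, |a| ≤ |b| → q b ≤ q a) (l : ℝ) :
    ∫⁻ t in {a | l < q a} ∩ Icc (-w) w, G t ≤ C * ∫⁻ t in {a | l < q a} ∩ Icc (-w) w, H t := by
  by_cases hl : l < q 0
  · obtain ⟨T, hT⟩ : ∃ T : Set ℝ, T = {r | 1 ≤ r ∧ r ≤ w ∧ l < q r} := ⟨_, rfl⟩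
    have h1T : (1 : ℝ) ∈ T := by
      rw [hT]
      refine ⟨le_rfl, hw, ?_⟩
      rw [hq1 1 (by rw [abs_one])]
      exact hl
    have hbd : BddAbove T := ⟨w, fun r hr => by rw [hT] at hr; exact hr.2.1⟩
    obtain ⟨ρ, hρ⟩ : ∃ ρ, ρ = sSup T := ⟨_, rfl⟩
    have hρ1 : 1 ≤ ρ := by rw [hρ]; exact le_csSup hbd h1T
    have hρw : ρ ≤ w := by
      rw [hρ]
      exact csSup_le ⟨1, h1T⟩ fun r hr => by rw [hT] at hr; exact hr.2.1
    have hsub1 : {a | l < q a} ∩ Icc (-w) w ⊆ Icc (-ρ) ρ := by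
      rintro a ⟨ha, haw⟩
      rw [mem_ofPred_eq] at ha
      have haw' : |a| ≤ w := abs_le.2 haw
      refine abs_le.1 ?_
      by_cases h1 : |a| ≤ 1
      · exact h1.trans hρ1
      · rw [hρ]
        apply le_csSup hbd
        rw [hT]
        refine ⟨(not_le.1 h1).le, haw', ?_⟩
        exact lt_of_lt_of_le ha (hq _ _ (by rw [abs_abs]))
    have hsub2 : Ioo (-ρ) ρ ⊆ {a | l < q a} ∩ Icc (-w) w := by
      intro a ha
      have h1 : |a| < ρ := abs_lt.2 ha
      have h2 : |a| < sSup T := by rw [← hρ]; exact h1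
      obtain ⟨r, hr, har⟩ := exists_lt_of_lt_csSup ⟨1, h1T⟩ h2
      rw [hT] at hr
      refine ⟨?_, abs_le.1 (h1.le.trans hρw)⟩
      rw [mem_ofPred_eq]
      refine lt_of_lt_of_le hr.2.2 (hq _ _ ?_)
      rw [abs_of_nonneg (by linarith [hr.1] : (0 : ℝ) ≤ r)]
      exact har.le
    calc ∫⁻ t in {a | l < q a} ∩ Icc (-w) w, G t ≤ ∫⁻ t in Icc (-ρ) ρ, G t :=
          lintegral_mono_set hsub1
      _ ≤ C * ∫⁻ t in Icc (-ρ) ρ, H t := h ρ hρ1 hρw
      _ = C * ∫⁻ t in Ioo (-ρ) ρ, H t := by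
          rw [setLIntegral_congr (Ioo_ae_eq_Icc (μ := volume) (a := -ρ) (b := ρ))]
      _ ≤ C * ∫⁻ t in {a | l < q a} ∩ Icc (-w) w, H t := by
          gcongr
  · have : {a | l < q a} = ∅ := by
      apply eq_empty_of_forall_notMem
      intro a ha
      rw [mem_ofPred_eq] at ha
      exact hl (lt_of_lt_of_le ha (hq _ _ (by rw [abs_zero]; exact abs_nonneg a)))
    rw [this, empty_inter, Measure.restrict_empty, lintegral_zero_measure]
    exact zero_le

/-- The layer cake. -/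
theorem layer {w : ℝ} (hw : 1 ≤ w) {G H : ℝ → ℝ≥0∞} (hG : Measurable G) (hH : Measurable H) {C : ℝ≥0∞}
    (hC : C ≠ ⊤)
    (h : ∀ r : ℝ, 1 ≤ r → r ≤ w → ∫⁻ t in Icc (-r) r, G t ≤ C * ∫⁻ t in Icc (-r) r, H t)
    {q : ℝ → ℝ} (hqm : Measurable q) (hq0 : ∀ a, 0 ≤ q a)
    (hq1 : ∀ a : ℝ, |a| ≤ 1 → q a = q 0) (hq : ∀ a b : ℝ, |a| ≤ |b| → q b ≤ q a) :
    ∫⁻ t in Icc (-w) w, G t * ENNReal.ofReal (q t) ≤
      C * ∫⁻ t in Icc (-w) w, H t * ENNReal.ofReal (q t) := by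
  have key : ∀ F : ℝ → ℝ≥0∞, Measurable F → ∫⁻ t in Icc (-w) w, F t * ENNReal.ofReal (q t) =
      ∫⁻ l in Ioi (0 : ℝ), ∫⁻ t in {a | l < q a} ∩ Icc (-w) w, F t := by
    intro F hF
    have h1 := lintegral_eq_lintegral_meas_lt ((volume.restrict (Icc (-w) w)).withDensity F)
      (f := q) (ae_of_all _ hq0) hqm.aemeasurable
    have h2 : ∫⁻ t, ENNReal.ofReal (q t) ∂((volume.restrict (Icc (-w) w)).withDensity F) =
        ∫⁻ t in Icc (-w) w, (F * fun t => ENNReal.ofReal (q t)) t :=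
      lintegral_withDensity_eq_lintegral_mul _ hF hqm.ennreal_ofReal
    refine h2.symm.trans (h1.trans ?_)
    apply lintegral_congr
    intro l
    have hm : MeasurableSet {a | l < q a} := measurableSet_lt measurable_const hqm
    rw [withDensity_apply _ hm, Measure.restrict_restrict hm]
  rw [key G hG, key H hH, ← lintegral_const_mul' _ _ hC]
  exact lintegral_mono fun l => level hw h hq1 hq l

/-- the factor -/
def g (α β c : ℂ) (t : ℝ) : ℝ := ‖c / (α * (t : ℂ) + β)‖ ^ (1 / 2 : ℝ)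

theorem g_nonneg (α β c : ℂ) (t : ℝ) : 0 ≤ g α β c t := by unfold g; positivity

theorem g_meas (α β c : ℂ) : Measurable (g α β c) := by
  unfold g
  fun_prop

theorem g_cont {α β c : ℂ} {r : ℝ} (hne : ∀ t : ℝ, |t| ≤ r → α * t + β ≠ 0) :
    ContinuousOn (g α β c) (Icc (-r) r) := by
  unfold g
  refine ContinuousOn.rpow_const (ContinuousOn.norm (continuousOn_const.div (by fun_prop) ?_))
    (fun _ _ => Or.inr (by norm_num))
  intro t ht
  exact hne t (abs_le.2 ht)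

theorem k_cont (κ : ℂ) : Continuous fun t : ℝ => ‖(t : ℂ) - κ‖ ^ (1 / 2 : ℝ) :=
  Continuous.rpow_const (by fun_prop) (fun _ => Or.inr (by norm_num))

theorem cov {r : ℝ} (hr : 0 < r) (F : ℝ → ℝ) :
    ∫ t in Icc (-r) r, F t = r * ∫ u in Icc (-1 : ℝ) 1, F (r * u) := by
  rw [integral_Icc_eq_integral_Ioc, integral_Icc_eq_integral_Ioc,
    ← intervalIntegral.integral_of_le (by linarith), ← intervalIntegral.integral_of_le (by norm_num),
    intervalIntegral.integral_comp_mul_left F hr.ne', smul_eq_mul, ← mul_assoc,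
    mul_inv_cancel₀ hr.ne', one_mul, mul_one, mul_neg, mul_one]

/-- The inequality on `[-r, r]`, `r ≥ 1`, with the constant of `[-1, 1]`. -/
theorem scaled {C : ℝ} (hC : 1 ≤ C)
    (h6 : ∀ κ α β c : ℂ, (∀ t : ℝ, |t| ≤ 1 → α * t + β ≠ 0) →
      ∫ t, ‖c / (α * (t : ℂ) + β)‖ ^ (1 / 2 : ℝ) ∂(unif 1)
        ≤ C * ∫ t, ‖(t : ℂ) - κ‖ ^ (1 / 2 : ℝ) * ‖c / (α * (t : ℂ) + β)‖ ^ (1 / 2 : ℝ) ∂(unif 1))
    {r : ℝ} (hr : 1 ≤ r) (κ α β c : ℂ) (hne : ∀ t : ℝ, |t| ≤ r → α * t + β ≠ 0) :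
    ∫ t in Icc (-r) r, g α β c t ≤
      C * ∫ t in Icc (-r) r, ‖(t : ℂ) - κ‖ ^ (1 / 2 : ℝ) * g α β c t := by
  have hr0 : 0 < r := by linarith
  have hrC : (r : ℂ) ≠ 0 := by exact_mod_cast hr0.ne'
  have hne' : ∀ t : ℝ, |t| ≤ 1 → α * r * t + β ≠ 0 := by
    intro t ht
    have h1 := hne (r * t) (by
      rw [abs_mul, abs_of_pos hr0]
      nlinarith [abs_nonneg t])
    push_cast at h1
    rwa [← mul_assoc] at h1
  have h := h6 (κ / r) (α * r) β c hne'
  rw [Pool.Agent.N491.SD.U1.integral_unif one_pos, Pool.Agent.N491.SD.U1.integral_unif one_pos,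
    smul_eq_mul, smul_eq_mul] at h
  have h2 : ∫ t in Icc (-1 : ℝ) 1, ‖c / (α * r * (t : ℂ) + β)‖ ^ (1 / 2 : ℝ) ≤
      C * ∫ t in Icc (-1 : ℝ) 1, ‖(t : ℂ) - κ / r‖ ^ (1 / 2 : ℝ) *
        ‖c / (α * r * (t : ℂ) + β)‖ ^ (1 / 2 : ℝ) := by
    linarith
  have e1 : ∀ u : ℝ, g α β c (r * u) = ‖c / (α * r * (u : ℂ) + β)‖ ^ (1 / 2 : ℝ) := by
    intro u
    unfold g
    push_cast
    rw [← mul_assoc]
  rw [cov hr0 (g α β c), cov hr0 (fun t => ‖(t : ℂ) - κ‖ ^ (1 / 2 : ℝ) * g α β c t)]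
  have h3 : ∫ u in Icc (-1 : ℝ) 1, ‖(u : ℂ) - κ / r‖ ^ (1 / 2 : ℝ) *
        ‖c / (α * r * (u : ℂ) + β)‖ ^ (1 / 2 : ℝ) ≤
      ∫ u in Icc (-1 : ℝ) 1, ‖((r * u : ℝ) : ℂ) - κ‖ ^ (1 / 2 : ℝ) * g α β c (r * u) := by
    apply integral_mono_of_nonneg
    · exact ae_of_all _ fun u => by
        simp only [Pi.zero_apply]
        positivity
    · apply ContinuousOn.integrableOn_compact isCompact_Icc
      apply ContinuousOn.mul
      · exact ((k_cont κ).comp (continuous_const.mul continuous_id)).continuousOn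
      · apply (g_cont hne).comp (by fun_prop)
        intro u hu
        have h4 := abs_le.2 hu
        refine abs_le.1 ?_
        rw [abs_mul, abs_of_pos hr0]
        nlinarith
    · refine ae_of_all _ fun u => ?_
      simp only
      rw [e1]
      apply mul_le_mul_of_nonneg_right _ (by positivity)
      apply Real.rpow_le_rpow (norm_nonneg _) _ (by norm_num)
      have h4 : ((r * u : ℝ) : ℂ) - κ = r * ((u : ℂ) - κ / r) := by
        push_cast
        field_simp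
      rw [h4, norm_mul, Complex.norm_real, Real.norm_of_nonneg hr0.le]
      nlinarith [norm_nonneg ((u : ℂ) - κ / r)]
  have h4 : ∫ u in Icc (-1 : ℝ) 1, g α β c (r * u) =
      ∫ t in Icc (-1 : ℝ) 1, ‖c / (α * r * (t : ℂ) + β)‖ ^ (1 / 2 : ℝ) := by
    simp only [e1]
  rw [h4]
  calc r * ∫ t in Icc (-1 : ℝ) 1, ‖c / (α * r * (t : ℂ) + β)‖ ^ (1 / 2 : ℝ)
      ≤ r * (C * ∫ u in Icc (-1 : ℝ) 1, ‖((r * u : ℝ) : ℂ) - κ‖ ^ (1 / 2 : ℝ) * g α β c (r * u)) := by
        apply mul_le_mul_of_nonneg_left _ hr0.le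
        exact h2.trans (mul_le_mul_of_nonneg_left h3 (by linarith))
    _ = _ := by ring

theorem main : S_GD := by
  intro s hs
  obtain ⟨-, C₁, hC₁, -, -, -, -, -, h6⟩ := Pool.Agent.N491.SD.U1.main 1 one_pos
  obtain ⟨v, hv⟩ : ∃ v : NNReal, v = ⟨s ^ 2, sq_nonneg s⟩ := ⟨_, rfl⟩
  have hv0 : v ≠ 0 := by
    intro h0
    rw [h0] at hv
    have h1 := congrArg NNReal.toReal hv
    have h2 : (0 : ℝ) = s ^ 2 := h1
    have : 0 < s ^ 2 := by positivity
    linarith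
  have hvp : (0 : ℝ) < v := by
    have : 0 < v := pos_iff_ne_zero.2 hv0
    exact_mod_cast this
  obtain ⟨p, hp⟩ : ∃ p : ℝ → ℝ, p = gaussianPDFReal 0 v := ⟨_, rfl⟩
  have hp0 : ∀ a, 0 < p a := by
    intro a
    rw [hp]
    exact gaussianPDFReal_pos 0 v a hv0
  have hpd : ∀ a b : ℝ, |a| ≤ |b| → p b ≤ p a := by
    intro a b hab
    have h1 : a ^ 2 ≤ b ^ 2 := sq_le_sq.2 hab
    rw [hp]
    unfold gaussianPDFReal
    apply mul_le_mul_of_nonneg_left _ (by positivity)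
    apply Real.exp_le_exp.2
    rw [sub_zero, sub_zero, neg_div, neg_div, neg_le_neg_iff]
    apply div_le_div_of_nonneg_right h1 (by positivity)
  have hpm : Measurable p := by
    rw [hp]
    exact measurable_gaussianPDFReal 0 v
  obtain ⟨q, hq⟩ : ∃ q : ℝ → ℝ, q = fun t => p (max 1 |t|) := ⟨_, rfl⟩
  have hqm : Measurable q := by
    rw [hq]
    exact hpm.comp (measurable_const.max (continuous_abs.measurable))
  obtain ⟨C₀, hC₀⟩ : ∃ C₀, C₀ = p 0 / p 1 := ⟨_, rfl⟩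
  have hC₀1 : 1 ≤ C₀ := by
    rw [hC₀, one_le_div (hp0 1)]
    exact hpd 0 1 (by rw [abs_zero]; exact abs_nonneg _)
  have hqp : ∀ t, q t ≤ p t := by
    intro t
    rw [hq]
    apply hpd
    rw [abs_of_nonneg (le_trans zero_le_one (le_max_left 1 |t|))]
    exact le_max_right _ _
  have hpq : ∀ t, p t ≤ C₀ * q t := by
    intro t
    rw [hq]
    simp only
    by_cases ht : |t| ≤ 1
    · rw [max_eq_left ht, hC₀, div_mul_cancel₀ _ (hp0 1).ne']
      exact hpd 0 t (by rw [abs_zero]; exact abs_nonneg _)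
    · rw [max_eq_right (not_le.1 ht).le]
      have h1 : p t ≤ p |t| := hpd _ _ (by rw [abs_abs])
      nlinarith [hp0 |t|]
  have hq0 : ∀ a, 0 ≤ q a := fun a => by rw [hq]; exact (hp0 _).le
  have hq1 : ∀ a : ℝ, |a| ≤ 1 → q a = q 0 := by
    intro a ha
    rw [hq]
    simp only
    rw [max_eq_left ha, abs_zero, max_eq_left zero_le_one]
  have hqd : ∀ a b : ℝ, |a| ≤ |b| → q b ≤ q a := by
    intro a b hab
    rw [hq]
    apply hpd
    rw [abs_of_nonneg (le_trans zero_le_one (le_max_left 1 |a|)),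
      abs_of_nonneg (le_trans zero_le_one (le_max_left 1 |b|))]
    exact max_le_max le_rfl hab
  refine ⟨C₀ * C₁, one_le_mul_of_one_le_of_one_le hC₀1 hC₁, ?_⟩
  intro w hw κ α β c hne
  have hgc := g_cont (c := c) hne
  have hhc : ContinuousOn (fun t : ℝ => ‖(t : ℂ) - κ‖ ^ (1 / 2 : ℝ) * g α β c t) (Icc (-w) w) :=
    (k_cont κ).continuousOn.mul hgc
  have hgm := g_meas α β c
  have hhm : Measurable (fun t : ℝ => ‖(t : ℂ) - κ‖ ^ (1 / 2 : ℝ) * g α β c t) :=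
    (k_cont κ).measurable.mul hgm
  have hh0 : ∀ t : ℝ, 0 ≤ ‖(t : ℂ) - κ‖ ^ (1 / 2 : ℝ) * g α β c t := fun t =>
    mul_nonneg (by positivity) (g_nonneg _ _ _ _)
  have hlay := layer (w := w) (by linarith) (G := fun t => ENNReal.ofReal (g α β c t))
    (H := fun t => ENNReal.ofReal (‖(t : ℂ) - κ‖ ^ (1 / 2 : ℝ) * g α β c t)) hgm.ennreal_ofReal
    hhm.ennreal_ofReal (C := ENNReal.ofReal C₁) ENNReal.ofReal_ne_top (by
      intro r hr hrw
      have h1 := scaled hC₁ h6 hr κ α β c (fun t ht => hne t (ht.trans hrw))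
      have hsub : Icc (-r) r ⊆ Icc (-w) w := Icc_subset_Icc (by linarith) hrw
      have i1 : IntegrableOn (g α β c) (Icc (-r) r) :=
        (hgc.mono hsub).integrableOn_compact isCompact_Icc
      have i2 : IntegrableOn (fun t : ℝ => ‖(t : ℂ) - κ‖ ^ (1 / 2 : ℝ) * g α β c t) (Icc (-r) r) :=
        (hhc.mono hsub).integrableOn_compact isCompact_Icc
      rw [← ofReal_integral_eq_lintegral_ofReal i1 (ae_of_all _ fun t => g_nonneg _ _ _ _),
        ← ofReal_integral_eq_lintegral_ofReal i2 (ae_of_all _ fun t => hh0 t),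
        ← ENNReal.ofReal_mul (by linarith)]
      exact ENNReal.ofReal_le_ofReal h1) hqm hq0 hq1 hqd
  have hden : ∀ F : ℝ → ℝ≥0∞, Measurable F → ∫⁻ t in Icc (-w) w, F t ∂(gs s) =
      ∫⁻ t in Icc (-w) w, F t * ENNReal.ofReal (p t) := by
    intro F hF
    unfold gs
    rw [← hv, gaussianReal_of_var_ne_zero _ hv0,
      setLIntegral_withDensity_eq_setLIntegral_mul _ (measurable_gaussianPDF 0 v) hF
        measurableSet_Icc]
    apply lintegral_congr
    intro t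
    rw [Pi.mul_apply, mul_comm, hp]
    rfl
  have j1 : Integrable (g α β c) ((gs s).restrict (Icc (-w) w)) :=
    hgc.integrableOn_compact isCompact_Icc
  have j2 : Integrable (fun t : ℝ => ‖(t : ℂ) - κ‖ ^ (1 / 2 : ℝ) * g α β c t)
      ((gs s).restrict (Icc (-w) w)) :=
    hhc.integrableOn_compact isCompact_Icc
  have hfin : ENNReal.ofReal (∫ t in Icc (-w) w, g α β c t ∂(gs s)) ≤
      ENNReal.ofReal (C₀ * C₁ * ∫ t in Icc (-w) w,
        ‖(t : ℂ) - κ‖ ^ (1 / 2 : ℝ) * g α β c t ∂(gs s)) := by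
    rw [ENNReal.ofReal_mul (by positivity), ENNReal.ofReal_mul (by positivity),
      ofReal_integral_eq_lintegral_ofReal j1 (ae_of_all _ fun t => g_nonneg _ _ _ _),
      ofReal_integral_eq_lintegral_ofReal j2 (ae_of_all _ fun t => hh0 t),
      hden _ hgm.ennreal_ofReal, hden _ hhm.ennreal_ofReal]
    calc ∫⁻ t in Icc (-w) w, ENNReal.ofReal (g α β c t) * ENNReal.ofReal (p t)
        ≤ ∫⁻ t in Icc (-w) w, ENNReal.ofReal C₀ *
            (ENNReal.ofReal (g α β c t) * ENNReal.ofReal (q t)) := by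
          apply lintegral_mono
          intro t
          simp only
          rw [mul_left_comm, ← ENNReal.ofReal_mul (by linarith : (0 : ℝ) ≤ C₀)]
          exact mul_le_mul_right (ENNReal.ofReal_le_ofReal (hpq t)) _
      _ = ENNReal.ofReal C₀ * ∫⁻ t in Icc (-w) w,
            ENNReal.ofReal (g α β c t) * ENNReal.ofReal (q t) :=
          lintegral_const_mul' _ _ ENNReal.ofReal_ne_top
      _ ≤ ENNReal.ofReal C₀ * (ENNReal.ofReal C₁ * ∫⁻ t in Icc (-w) w,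
            ENNReal.ofReal (‖(t : ℂ) - κ‖ ^ (1 / 2 : ℝ) * g α β c t) * ENNReal.ofReal (q t)) := by
          gcongr
      _ ≤ ENNReal.ofReal C₀ * (ENNReal.ofReal C₁ * ∫⁻ t in Icc (-w) w,
            ENNReal.ofReal (‖(t : ℂ) - κ‖ ^ (1 / 2 : ℝ) * g α β c t) * ENNReal.ofReal (p t)) := by
          gcongr with t
          exact hqp t
      _ = _ := by rw [mul_assoc]
  exact (ENNReal.ofReal_le_ofReal_iff (mul_nonneg (by positivity)
    (integral_nonneg fun t => hh0 t))).1 hfin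

end

end Pool.Agent.N164.SN.GD
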